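import Pool.Agent.R993.MTFinal

set_option autoImplicit false

open Matrix
open scoped MatrixOrder ComplexOrder

namespace Pool.Agent.Results.MP_ebd556_mp.UniversalConstant

/-- The trace norm `‖X‖₁ = Tr √(X* X)` of a complex square matrix. -/
noncomputable def traceNorm {d : ℕ} (X : Matrix (Fin d) (Fin d) ℂ) : ℝ :=
  (CFC.sqrt (Xᴴ * X)).trace.re

/-- `L(A₁, …, Aₙ) = Tr √(∑ Aⱼ²) - ∑ Tr Aⱼ`. -/
noncomputable def L {n d : ℕ} (A : Fin n → Matrix (Fin d) (Fin d) ℂ) : ℝ :=
  (CFC.sqrt (∑ j, A j ^ 2)).trace.re - ∑ j, (A j).trace.re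

/-- `R(A₁, …, Aₙ) = ∑_{j < k} (‖Aⱼ - Aₖ‖₁ - Tr (Aⱼ + Aₖ))`. -/
noncomputable def R {n d : ℕ} (A : Fin n → Matrix (Fin d) (Fin d) ℂ) : ℝ :=
  ∑ j, ∑ k ∈ Finset.Ioi j, (traceNorm (A j - A k) - (A j + A k).trace.re)

/-- A single constant (`c = 56`) works for every `n`, every dimension `d` and all positive
matrices. -/
theorem result :
    ∀ (n d : ℕ) (A : Fin n → Matrix (Fin d) (Fin d) ℂ), (∀ j, (A j).PosSemidef) →
      56 * R A ≤ L A := by
  intro n d A hA
  have hA' : ∀ j, 0 ≤ A j := fun j => nonneg_iff_posSemidef.2 (hA j)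
  have h := Pool.Agent.R993.MT.main_ineq hA'
  set f : Fin n → Fin n → ℝ := fun j k => traceNorm (A j - A k) - (A j + A k).trace.re with hf
  have hsymm : ∀ j k, f j k = f k j := by
    intro j k
    simp only [hf, traceNorm]
    have e1 : (A j - A k)ᴴ * (A j - A k) = (A k - A j)ᴴ * (A k - A j) := by
      rw [← neg_sub (A k) (A j), Matrix.conjTranspose_neg, neg_mul_neg]
    rw [e1, add_comm]
  have hsplit : ∑ j, ∑ l ∈ Finset.univ.erase j, f j l = 2 * ∑ j, ∑ k ∈ Finset.Ioi j, f j k := by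
    have e1 : ∀ j : Fin n, ∑ l ∈ Finset.univ.erase j, f j l =
        ∑ l ∈ Finset.Ioi j, f j l + ∑ l ∈ Finset.Iio j, f j l := by
      intro j
      have hd : Disjoint (Finset.Ioi j) (Finset.Iio j) := by
        rw [Finset.disjoint_left]
        intro a ha hb
        exact absurd (Finset.mem_Ioi.1 ha) (not_lt.2 (Finset.mem_Iio.1 hb).le)
      rw [← Finset.sum_union hd]
      refine Finset.sum_congr ?_ fun _ _ => rfl
      ext a
      simp only [Finset.mem_erase, Finset.mem_univ, and_true, Finset.mem_union, Finset.mem_Ioi,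
        Finset.mem_Iio]
      constructor
      · intro hne
        exact (lt_or_gt_of_ne hne).symm
      · rintro (h1 | h1)
        · exact ne_of_gt h1
        · exact ne_of_lt h1
    have e2 : ∑ j, ∑ l ∈ Finset.Iio j, f j l = ∑ j, ∑ k ∈ Finset.Ioi j, f j k := by
      rw [Finset.sum_comm' (t' := Finset.univ) (s' := fun l => Finset.Ioi l) (by
        intro x y; simp)]
      exact Finset.sum_congr rfl fun j _ => Finset.sum_congr rfl fun k _ => hsymm _ _
    rw [Finset.sum_congr rfl fun j _ => e1 j, Finset.sum_add_distrib, e2]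
    ring
  have h2 : ∑ j, ∑ l ∈ Finset.univ.erase j, (Pool.Agent.R993.MT.tr (A j + A l) -
      Pool.Agent.R993.MT.trNorm (A j - A l)) = - ∑ j, ∑ l ∈ Finset.univ.erase j, f j l := by
    rw [← Finset.sum_neg_distrib]
    refine Finset.sum_congr rfl fun j _ => ?_
    rw [← Finset.sum_neg_distrib]
    refine Finset.sum_congr rfl fun l _ => ?_
    simp only [hf, traceNorm, Pool.Agent.R993.MT.tr, Pool.Agent.R993.MT.trNorm]
    ring
  rw [h2, hsplit] at h
  have hR : R A = ∑ j, ∑ k ∈ Finset.Ioi j, f j k := rfl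
  have hL : L A = Pool.Agent.R993.MT.tr (CFC.sqrt (∑ j, A j ^ 2)) -
      ∑ j, Pool.Agent.R993.MT.tr (A j) := rfl
  rw [hR, hL]
  linarith

end Pool.Agent.Results.MP_ebd556_mp.UniversalConstant
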